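import Pool.Agent.X160.Pl.Fin
set_option autoImplicit false

/-!
# Thin tubes with `ρ`-separated directions: the base estimate
-/

open MeasureTheory Set Metric
open scoped ENNReal NNReal

namespace Pool.Agent.X160.Ws

open Pool.Agent.TH705.RR Pool.Agent.X160.Pl

theorem mm_ms {n : ℕ} {ι : Type} [Fintype ι] (δ : ℝ) (a e : ι → E n) : Measurable (mm δ a e) := by
  unfold mm
  exact Finset.measurable_fun_sum _ (fun j _ => ind_ms δ (a j) (e j))

theorem int_mm {n : ℕ} (hn : 1 ≤ n) {ι : Type} [Fintype ι] {w : ℝ} (hw : 0 < w) (hw1 : w < 1)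
    (a e : ι → E n) (he : ∀ i, ‖e i‖ = 1) :
    ∫⁻ x, mm w a e x ≤ ENNReal.ofReal (2 ^ n * vb n * 4 * w ^ (n - 1) * (Fintype.card ι : ℝ)) := by
  have hv := vb_pos n
  unfold mm
  rw [lintegral_finsetSum _ (fun j _ => ind_ms w (a j) (e j))]
  calc ∑ j, ∫⁻ x, (tube w (a j) (e j)).indicator (fun _ => (1 : ℝ≥0∞)) x
      ≤ ∑ _j : ι, ENNReal.ofReal (2 ^ n * vb n * 4 * w ^ (n - 1)) := by
        apply Finset.sum_le_sum
        intro j _
        rw [lintegral_indicator (tube_ms w (a j) (e j)), setLIntegral_one]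
        exact vol_tube hn hw hw1 (he j)
    _ = _ := by
        rw [Finset.sum_const, nsmul_eq_mul, Finset.card_univ, ← ENNReal.ofReal_natCast,
          ← ENNReal.ofReal_mul (by positivity)]
        congr 1
        ring

/-- `∫ (Σ 1_T)²`. -/
theorem l2 {n : ℕ} (hn : 3 ≤ n) : ∃ C : ℝ, 0 < C ∧ ∀ (ρ w : ℝ), 0 < w → w ≤ ρ → ρ < 1 →
    ∀ (ι : Type) [Fintype ι] (a e : ι → E n), (∀ i, ‖e i‖ = 1) →
    (∀ i j, i ≠ j → ρ ≤ ‖e i - e j‖) →
    ∫⁻ x, mm w a e x * mm w a e x ≤ ENNReal.ofReal (C * w ^ (n - 1) * ((Fintype.card ι : ℝ) *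
      (1 + w / ρ * (Fintype.card ι : ℝ) ^ (1 - 1 / ((n - 1 : ℕ) : ℝ))))) := by
  obtain ⟨K, hK, hcount⟩ := count (n := n) (by omega)
  have hv := vb_pos n
  set m : ℕ := n - 1 with hm
  have hm2 : (2 : ℝ) ≤ m := by exact_mod_cast (by omega : 2 ≤ n - 1)
  set G : ℝ := 1 + 2 ^ (1 : ℝ) * K * (1 / (1 - 2 ^ (-((m : ℝ) - 1)))) with hG
  have hG0 : 0 < G := by
    have h2 : (2 : ℝ) ^ (-((m : ℝ) - 1)) < 1 :=
      Real.rpow_lt_one_of_one_lt_of_neg (by norm_num) (by linarith)
    have h3 : 0 < 1 - (2 : ℝ) ^ (-((m : ℝ) - 1)) := by linarith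
    positivity
  set c1 : ℝ := 2 ^ n * vb n * 4 with hc1
  set c2 : ℝ := 2 ^ n * vb n * 14 * 2 ^ n with hc2
  refine ⟨K * c1 + c2 * G, by positivity, ?_⟩
  intro ρ w hw hwρ hρ1 ι _ a e he hsep
  classical
  have hρ : 0 < ρ := by linarith
  rcases isEmpty_or_nonempty ι with hι | hι
  · have : ∀ x, mm w a e x = 0 := by
      intro x
      unfold mm
      rw [Finset.univ_eq_empty, Finset.sum_empty]
    simp [this]
  set N : ℝ := (Fintype.card ι : ℝ) with hN
  have hN1 : 1 ≤ N := by
    rw [hN]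
    exact_mod_cast Fintype.card_pos
  have hN0 : 0 < N := by linarith
  have hint : ∫⁻ x, mm w a e x * mm w a e x =
      ∑ i, ∑ j, volume (tube w (a i) (e i) ∩ tube w (a j) (e j)) := by
    have h1 : ∀ x, mm w a e x * mm w a e x = ∑ i, ∑ j,
        (tube w (a i) (e i) ∩ tube w (a j) (e j)).indicator (fun _ => (1 : ℝ≥0∞)) x := by
      intro x
      unfold mm
      rw [Finset.sum_mul_sum]
      apply Finset.sum_congr rfl
      intro i _
      apply Finset.sum_congr rfl
      intro j _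
      by_cases h1 : x ∈ tube w (a i) (e i)
      · by_cases h2 : x ∈ tube w (a j) (e j)
        · simp [h1, h2]
        · simp [h2]
      · simp [h1]
    simp_rw [h1]
    have hms : ∀ i j, Measurable ((tube w (a i) (e i) ∩ tube w (a j) (e j)).indicator
        (fun _ => (1 : ℝ≥0∞))) := fun i j =>
      measurable_const.indicator ((tube_ms w (a i) (e i)).inter (tube_ms w (a j) (e j)))
    rw [lintegral_finsetSum _ (fun i _ => Finset.measurable_fun_sum _ (fun j _ => hms i j))]
    apply Finset.sum_congr rfl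
    intro i _
    rw [lintegral_finsetSum _ (fun j _ => hms i j)]
    apply Finset.sum_congr rfl
    intro j _
    rw [lintegral_indicator ((tube_ms w (a i) (e i)).inter (tube_ms w (a j) (e j))), setLIntegral_one]
  rw [hint]
  have hrow : ∀ i, ∑ j, volume (tube w (a i) (e i) ∩ tube w (a j) (e j)) ≤
      ENNReal.ofReal ((K * c1 + c2 * G) * w ^ m * (1 + w / ρ * N ^ (1 - 1 / (m : ℝ)))) := by
    intro i
    rw [← Finset.sum_filter_add_sum_filter_not Finset.univ (fun j => sn (e i) (e j) ≤ ρ)]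
    set J1 := Finset.univ.filter (fun j => sn (e i) (e j) ≤ ρ) with hJ1
    set J2 := Finset.univ.filter (fun j => ¬ sn (e i) (e j) ≤ ρ) with hJ2
    have hnear : ∑ j ∈ J1, volume (tube w (a i) (e i) ∩ tube w (a j) (e j)) ≤
        ENNReal.ofReal (K * c1 * w ^ m) := by
      have hc : (J1.card : ℝ) ≤ K := by
        have h2 := hcount ρ hρ hρ1 e he hsep (e i) (he i) J1 ρ le_rfl
          (fun j hj => (Finset.mem_filter.1 hj).2)
        rwa [div_self hρ.ne', one_pow, mul_one] at h2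
      calc ∑ j ∈ J1, volume (tube w (a i) (e i) ∩ tube w (a j) (e j))
          ≤ ∑ j ∈ J1, ENNReal.ofReal (c1 * w ^ m) := by
            apply Finset.sum_le_sum
            intro j _
            exact (measure_mono inter_subset_left).trans (vol_tube (by omega) hw (by linarith) (he i))
        _ = ENNReal.ofReal (J1.card * (c1 * w ^ m)) := by
            rw [Finset.sum_const, nsmul_eq_mul, ← ENNReal.ofReal_natCast,
              ← ENNReal.ofReal_mul (by positivity)]
        _ ≤ _ := by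
            apply ENNReal.ofReal_le_ofReal
            have g0 : 0 ≤ c1 * w ^ m := by positivity
            have := mul_le_mul_of_nonneg_right hc g0
            linarith
    set y : ι → ℝ := fun j => sn (e i) (e j) / ρ with hy
    have hy1 : ∀ j ∈ J2, 1 ≤ y j := by
      intro j hj
      have h2 := (Finset.mem_filter.1 hj).2
      push Not at h2
      simp only [hy]
      rw [le_div_iff₀ hρ, one_mul]
      exact h2.le
    have hcy : ∀ t, 1 ≤ t → ((J2.filter (fun j => y j ≤ t)).card : ℝ) ≤ K * t ^ m := by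
      intro t ht
      have h2 := hcount ρ hρ hρ1 e he hsep (e i) (he i) (J2.filter (fun j => y j ≤ t)) (t * ρ)
        (by nlinarith) (fun j hj => by
          have h3 := (Finset.mem_filter.1 hj).2
          simp only [hy] at h3
          rwa [div_le_iff₀ hρ] at h3)
      rwa [mul_div_assoc, div_self hρ.ne', mul_one] at h2
    have hcJ2 : (J2.card : ℝ) ≤ N := by
      rw [hN]
      exact_mod_cast Finset.card_le_univ _
    have has := ang_sum J2 y (K := K) (α := 1) (N := N) (m := m) (by linarith) one_pos (by linarith)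
      hN1 hcJ2 hy1 hcy
    have hfar : ∑ j ∈ J2, volume (tube w (a i) (e i) ∩ tube w (a j) (e j)) ≤
        ENNReal.ofReal (c2 * (w ^ m * (w / ρ)) * (G * N ^ (1 - 1 / (m : ℝ)))) := by
      calc ∑ j ∈ J2, volume (tube w (a i) (e i) ∩ tube w (a j) (e j))
          ≤ ∑ j ∈ J2, ENNReal.ofReal (c2 * (w ^ m * (w / ρ)) * (y j) ^ (-(1 : ℝ))) := by
            apply Finset.sum_le_sum
            intro j hj
            have hyj := hy1 j hj
            have hsn : 0 < sn (e i) (e j) := by
              have h2 := (Finset.mem_filter.1 hj).2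
              push Not at h2
              linarith
            refine (vol_inter (by omega) hw (he i) (he j) hsn).trans (le_of_eq ?_)
            congr 1
            rw [Real.rpow_neg_one, hc2]
            have h3 : w ^ n = w ^ m * w := by
              rw [← pow_succ]
              congr 1
              omega
            rw [h3]
            simp only [hy]
            field_simp
        _ = ENNReal.ofReal (c2 * (w ^ m * (w / ρ)) * ∑ j ∈ J2, (y j) ^ (-(1 : ℝ))) := by
            rw [← ENNReal.ofReal_sum_of_nonneg, Finset.mul_sum]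
            intro j hj
            have hyj := hy1 j hj
            positivity
        _ ≤ _ := by
            apply ENNReal.ofReal_le_ofReal
            gcongr
    refine (add_le_add hnear hfar).trans ?_
    rw [← ENNReal.ofReal_add (by positivity) (by positivity)]
    apply ENNReal.ofReal_le_ofReal
    set Y := w / ρ * N ^ (1 - 1 / (m : ℝ)) with hY
    have hY0 : 0 ≤ Y := by positivity
    have e1 : c2 * (w ^ m * (w / ρ)) * (G * N ^ (1 - 1 / (m : ℝ))) = c2 * G * w ^ m * Y := by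
      rw [hY]; ring
    rw [e1]
    have g1 : 0 ≤ K * c1 * w ^ m * Y := by positivity
    have g2 : 0 ≤ c2 * G * w ^ m := by positivity
    nlinarith
  calc ∑ i, ∑ j, volume (tube w (a i) (e i) ∩ tube w (a j) (e j))
      ≤ ∑ _i : ι, ENNReal.ofReal ((K * c1 + c2 * G) * w ^ m * (1 + w / ρ * N ^ (1 - 1 / (m : ℝ)))) :=
        Finset.sum_le_sum (fun i _ => hrow i)
    _ = _ := by
        rw [Finset.sum_const, nsmul_eq_mul, Finset.card_univ, ← ENNReal.ofReal_natCast,
          ← ENNReal.ofReal_mul (by positivity)]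
        congr 1
        ring

theorem one_add_rpow_le {z p : ℝ} (hz : 0 ≤ z) (hp : 0 ≤ p) (hp1 : p ≤ 1) :
    (1 + z) ^ p ≤ 1 + z ^ p := by
  have := Real.rpow_add_le_add_rpow (zero_le_one) hz hp hp1
  rwa [Real.one_rpow] at this

/-- The base estimate: `∫ (Σ 1_T)^q` for `1 ≤ q ≤ 2`. -/
theorem base {n : ℕ} (hn : 3 ≤ n) {q : ℝ} (hq : 1 ≤ q) (hq2 : q ≤ 2) :
    ∃ C : ℝ, 0 < C ∧ ∀ (ρ w : ℝ), 0 < w → w ≤ ρ → ρ < 1 →
    ∀ (ι : Type) [Fintype ι] (a e : ι → E n), (∀ i, ‖e i‖ = 1) →
    (∀ i j, i ≠ j → ρ ≤ ‖e i - e j‖) →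
    ∫⁻ x, mm w a e x ^ q ≤ ENNReal.ofReal (C * w ^ (n - 1) * ((Fintype.card ι : ℝ) +
      (w / ρ) ^ (q - 1) * (Fintype.card ι : ℝ) ^ (1 + (q - 1) * (1 - 1 / ((n - 1 : ℕ) : ℝ))))) := by
  obtain ⟨C, hC, h2⟩ := l2 hn
  have hv := vb_pos n
  refine ⟨2 ^ n * vb n * 4 + C, by positivity, ?_⟩
  intro ρ w hw hwρ hρ1 ι _ a e he hsep
  have hρ : 0 < ρ := by linarith
  have h2' := h2 ρ w hw hwρ hρ1 ι a e he hsep
  have h1 := int_mm (n := n) (by omega) hw (by linarith) a e he
  set m : ℕ := n - 1 with hm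
  have hm2 : (2 : ℝ) ≤ m := by exact_mod_cast (by omega : 2 ≤ n - 1)
  rcases isEmpty_or_nonempty ι with hι | hι
  · have : ∀ x, mm w a e x ^ q = 0 := by
      intro x
      unfold mm
      rw [Finset.univ_eq_empty, Finset.sum_empty, ENNReal.zero_rpow_of_pos (by linarith)]
    simp [this]
  set N : ℝ := (Fintype.card ι : ℝ) with hN
  have hN1 : 1 ≤ N := by
    rw [hN]
    exact_mod_cast Fintype.card_pos
  have hN0 : 0 < N := by linarith
  set z : ℝ := w / ρ * N ^ (1 - 1 / (m : ℝ)) with hz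
  have hz0 : 0 ≤ z := by positivity
  set Λ : ℝ := 1 + z with hΛ
  have hΛ0 : 0 < Λ := by positivity
  have hpt : ∀ x, mm w a e x ^ q ≤ ENNReal.ofReal (Λ ^ (q - 1)) * mm w a e x +
      ENNReal.ofReal (Λ ^ (q - 1 - 1)) * (mm w a e x * mm w a e x) := by
    intro x
    have g1 := young (x := mm w a e x) (l := ENNReal.ofReal Λ)
      (ENNReal.ofReal_pos.2 hΛ0).ne' ENNReal.ofReal_ne_top (p := q - 1) (by linarith) (by linarith)
    rw [ENNReal.ofReal_rpow_of_pos hΛ0, ENNReal.ofReal_rpow_of_pos hΛ0] at g1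
    have e1 : mm w a e x ^ q = mm w a e x ^ (q - 1) * mm w a e x := by
      have e2 : q = (q - 1) + 1 := by ring
      nth_rewrite 1 [e2]
      rw [ENNReal.rpow_add_of_nonneg _ _ (by linarith) zero_le_one, ENNReal.rpow_one]
    rw [e1]
    calc mm w a e x ^ (q - 1) * mm w a e x
        ≤ (ENNReal.ofReal (Λ ^ (q - 1)) + ENNReal.ofReal (Λ ^ (q - 1 - 1)) * mm w a e x) *
          mm w a e x := by gcongr
      _ = _ := by ring
  calc ∫⁻ x, mm w a e x ^ q
      ≤ ∫⁻ x, (ENNReal.ofReal (Λ ^ (q - 1)) * mm w a e x +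
      ENNReal.ofReal (Λ ^ (q - 1 - 1)) * (mm w a e x * mm w a e x)) := lintegral_mono hpt
    _ = ENNReal.ofReal (Λ ^ (q - 1)) * (∫⁻ x, mm w a e x) +
        ENNReal.ofReal (Λ ^ (q - 1 - 1)) * (∫⁻ x, mm w a e x * mm w a e x) := by
        rw [lintegral_add_left ((mm_ms w a e).const_mul _),
          lintegral_const_mul' _ _ ENNReal.ofReal_ne_top,
          lintegral_const_mul' _ _ ENNReal.ofReal_ne_top]
    _ ≤ ENNReal.ofReal (Λ ^ (q - 1)) * ENNReal.ofReal (2 ^ n * vb n * 4 * w ^ m * N) +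
        ENNReal.ofReal (Λ ^ (q - 1 - 1)) * ENNReal.ofReal (C * w ^ m * (N * Λ)) := by
        gcongr
    _ = ENNReal.ofReal (Λ ^ (q - 1) * (2 ^ n * vb n * 4 * w ^ m * N) +
        Λ ^ (q - 1 - 1) * (C * w ^ m * (N * Λ))) := by
        rw [← ENNReal.ofReal_mul (by positivity), ← ENNReal.ofReal_mul (by positivity),
          ← ENNReal.ofReal_add (by positivity) (by positivity)]
    _ ≤ _ := by
        apply ENNReal.ofReal_le_ofReal
        have g1 : Λ ^ (q - 1 - 1) * Λ = Λ ^ (q - 1) := by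
          nth_rewrite 2 [← Real.rpow_one Λ]
          rw [← Real.rpow_add hΛ0]
          congr 1
          ring
        have g2 : Λ ^ (q - 1) ≤ 1 + z ^ (q - 1) := one_add_rpow_le hz0 (by linarith) (by linarith)
        have g3 : N * z ^ (q - 1) = (w / ρ) ^ (q - 1) * N ^ (1 + (q - 1) * (1 - 1 / (m : ℝ))) := by
          rw [hz, Real.mul_rpow (by positivity) (by positivity), ← Real.rpow_mul hN0.le,
            Real.rpow_add hN0, Real.rpow_one]
          rw [mul_comm (1 - 1 / (m : ℝ)) (q - 1)]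
          ring
        calc Λ ^ (q - 1) * (2 ^ n * vb n * 4 * w ^ m * N) + Λ ^ (q - 1 - 1) * (C * w ^ m * (N * Λ))
            = (2 ^ n * vb n * 4) * w ^ m * (N * Λ ^ (q - 1)) +
              C * w ^ m * (N * (Λ ^ (q - 1 - 1) * Λ)) := by ring
          _ = (2 ^ n * vb n * 4 + C) * w ^ m * (N * Λ ^ (q - 1)) := by rw [g1]; ring
          _ ≤ (2 ^ n * vb n * 4 + C) * w ^ m * (N * (1 + z ^ (q - 1))) := by gcongr
          _ = _ := by rw [mul_add, mul_one, g3]

end Pool.Agent.X160.Ws
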