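import Pool.Agent.X160.Ws.Ind
import Pool.Agent.Y249.AC.Src
import Pool.Agent.W131.HM.CapVol
set_option autoImplicit false

/-!
# Thin tubes with `ρ`-separated directions: assembly
-/

open MeasureTheory Set Metric
open scoped ENNReal NNReal

namespace Pool.Agent.X160.Ws

open Pool.Agent.TH705.RR Pool.Agent.X160.Pl Pool.Agent.Y249.AC

theorem sj_all {d : ℕ} (hd : 2 ≤ d) {c : ℝ} (hc1 : 1 ≤ c) (hcd : c ≤ d) (hT : TubeB d c) (j : ℕ) :
    SJ (d + 1) (1 + c / d) (1 - 1 / c) j := by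
  have hd0 : (0 : ℝ) < d := by exact_mod_cast (by omega : 0 < d)
  have hc0 : 0 < c := by linarith
  obtain ⟨A, hA, hT⟩ := hT
  have hκ0 : 0 ≤ 1 - 1 / c := by
    have : 1 / c ≤ 1 := by rw [div_le_one hc0]; exact hc1
    linarith
  have hκ1 : 1 - 1 / c ≤ 1 := by
    have : 0 ≤ 1 / c := by positivity
    linarith
  induction j with
  | zero =>
    apply sj_zero (by omega)
    have : c / d ≤ 1 := by rw [div_le_one hd0]; exact hcd
    linarith
  | succ j ih =>
    refine sj_succ (by omega) hA hκ0 hκ1 ?_ ih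
    intro ρ hρ hρ1 ι _ a e he hsep
    have h1 := hT ρ hρ hρ1 ι a e he hsep
    refine h1.trans (le_of_eq ?_)
    congr 1
    rw [Nat.add_sub_cancel, Real.rpow_natCast]
    congr 2
    field_simp
    ring

/-- The three conclusions for `δ ^ (1 / K)`-separated directions. -/
theorem good_int {d : ℕ} (hd : 2 ≤ d) {Q κ : ℝ} (hκ : 0 ≤ κ) {j : ℕ} (hS : SJ (d + 1) Q κ j) {K : ℝ}
    (hK : (j : ℝ) + 1 + κ ^ j * ((d : ℝ) - 1) ≤ K) {q : ℝ} (hq : 1 ≤ q) (hqQ : q ≤ Q) :
    ∃ C : ℝ, 0 < C ∧ ∀ δ : ℝ, 0 < δ → δ < 1 → ∀ (ι : Type) [Fintype ι] (a e : ι → E (d + 1)),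
      (∀ i, ‖e i‖ = 1) → (∀ i j, i ≠ j → δ ^ (1 / K) ≤ ‖e i - e j‖) →
      ∫⁻ x, mm δ a e x ^ q ≤ ENNReal.ofReal (C * δ ^ d * (Fintype.card ι : ℝ)) := by
  have hd2 : (2 : ℝ) ≤ d := by exact_mod_cast hd
  have hd0 : (0 : ℝ) < d := by linarith
  obtain ⟨K0, hK0, hcount⟩ := count (n := d + 1) (by omega)
  obtain ⟨C, hC, h⟩ := hS q hq hqQ
  have hκj : 0 ≤ κ ^ j := pow_nonneg hκ j
  have hj0 : (0 : ℝ) ≤ j := Nat.cast_nonneg j
  have hKpos : 0 < K := by
    have : 0 ≤ κ ^ j * ((d : ℝ) - 1) := mul_nonneg hκj (by linarith)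
    linarith
  have hx0 : 0 ≤ κ ^ j * (1 - 1 / (d : ℝ)) := by
    apply mul_nonneg hκj
    have : 1 / (d : ℝ) ≤ 1 := by rw [div_le_one hd0]; linarith
    linarith
  refine ⟨C * (1 + (K0 ^ (κ ^ j * (1 - 1 / (d : ℝ)))) ^ (q - 1)), by positivity, ?_⟩
  intro δ hδ hδ1 ι _ a e he hsep
  set ρ : ℝ := δ ^ (1 / K) with hρd
  have hρ : 0 < ρ := by positivity
  have hρ1 : ρ < 1 := Real.rpow_lt_one hδ.le hδ1 (by positivity)
  have hδρ : δ = ρ ^ K := by
    rw [hρd, ← Real.rpow_mul hδ.le, one_div, inv_mul_cancel₀ hKpos.ne', Real.rpow_one]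
  have hwρ : δ ≤ ρ ^ (j + 1) := by
    rw [hδρ, ← Real.rpow_natCast ρ (j + 1)]
    apply Real.rpow_le_rpow_of_exponent_ge hρ hρ1.le
    push_cast
    have : 0 ≤ κ ^ j * ((d : ℝ) - 1) := mul_nonneg hκj (by linarith)
    linarith
  have h1 := h ρ δ hρ hρ1 hδ hwρ ι a e he hsep
  rcases isEmpty_or_nonempty ι with hι | hι
  · have : ∀ x, mm δ a e x ^ q = 0 := by
      intro x
      unfold mm
      rw [Finset.univ_eq_empty, Finset.sum_empty, ENNReal.zero_rpow_of_pos (by linarith)]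
    simp [this]
  refine h1.trans (ENNReal.ofReal_le_ofReal ?_)
  set N : ℝ := (Fintype.card ι : ℝ) with hN
  have hN1 : 1 ≤ N := by
    rw [hN]
    exact_mod_cast Fintype.card_pos
  have hN0 : 0 < N := by linarith
  rw [Nat.add_sub_cancel]
  -- the number of tubes
  have hNρ : N ≤ K0 * (1 / ρ) ^ d := by
    obtain ⟨i0⟩ := hι
    have h2 := hcount ρ hρ hρ1 e he hsep (e i0) (he i0) Finset.univ 1 hρ1.le (by
      intro i _
      have h3 := sn_sq (he i0) (he i)
      have h4 : sn (e i0) (e i) ^ 2 ≤ 1 := by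
        rw [h3]
        nlinarith [sq_nonneg (inner ℝ (e i0) (e i) : ℝ)]
      have h5 := sn_nonneg (e i0) (e i)
      nlinarith)
    rwa [Finset.card_univ, Nat.add_sub_cancel] at h2
  set x : ℝ := κ ^ j * (1 - 1 / (d : ℝ)) with hx
  have hkey : δ / ρ ^ (j + 1) * N ^ x ≤ K0 ^ x := by
    have h2 : N ^ x ≤ K0 ^ x * ρ ^ (-((d : ℝ) * x)) := by
      calc N ^ x ≤ (K0 * (1 / ρ) ^ d) ^ x := Real.rpow_le_rpow hN0.le hNρ hx0
        _ = K0 ^ x * ρ ^ (-((d : ℝ) * x)) := by
            rw [Real.mul_rpow (by linarith) (by positivity), one_div, inv_pow,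
              Real.inv_rpow (by positivity), ← Real.rpow_natCast ρ d, ← Real.rpow_mul hρ.le,
              Real.rpow_neg hρ.le]
    have h3 : δ / ρ ^ (j + 1) = ρ ^ (K - ((j : ℝ) + 1)) := by
      rw [Real.rpow_sub hρ, ← hδρ]
      congr 1
      rw [← Real.rpow_natCast ρ (j + 1)]
      push_cast
      rfl
    calc δ / ρ ^ (j + 1) * N ^ x ≤ ρ ^ (K - ((j : ℝ) + 1)) * (K0 ^ x * ρ ^ (-((d : ℝ) * x))) := by
          rw [h3]
          gcongr
      _ = K0 ^ x * ρ ^ (K - ((j : ℝ) + 1) - (d : ℝ) * x) := by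
          rw [sub_eq_add_neg (K - ((j : ℝ) + 1)) ((d : ℝ) * x), Real.rpow_add hρ]
          ring
      _ ≤ K0 ^ x * 1 := by
          gcongr
          apply Real.rpow_le_one hρ.le hρ1.le
          have : (d : ℝ) * x = κ ^ j * ((d : ℝ) - 1) := by
            rw [hx]
            field_simp
          rw [this]
          linarith
      _ = K0 ^ x := mul_one _
  have hkey2 : (δ / ρ ^ (j + 1)) ^ (q - 1) * N ^ (1 + (q - 1) * κ ^ j * (1 - 1 / (d : ℝ))) ≤
      (K0 ^ x) ^ (q - 1) * N := by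
    have e1 : N ^ (1 + (q - 1) * κ ^ j * (1 - 1 / (d : ℝ))) = (N ^ x) ^ (q - 1) * N := by
      rw [← Real.rpow_mul hN0.le]
      nth_rewrite 3 [← Real.rpow_one N]
      rw [← Real.rpow_add hN0]
      congr 1
      rw [hx]
      ring
    rw [e1, ← mul_assoc, ← Real.mul_rpow (by positivity) (by positivity)]
    gcongr
  calc C * δ ^ d * (N + (δ / ρ ^ (j + 1)) ^ (q - 1) *
        N ^ (1 + (q - 1) * κ ^ j * (1 - 1 / (d : ℝ))))
      ≤ C * δ ^ d * (N + (K0 ^ x) ^ (q - 1) * N) := by gcongr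
    _ = _ := by ring

/-- The conjectured inequality, endpoint included, from essential disjointness. -/
theorem kb_of_int {d : ℕ} (hd : 2 ≤ d) {C : ℝ} (hC : 0 < C) {δ : ℝ} (hδ : 0 < δ)
    {ι : Type} [Fintype ι] (a e : ι → E (d + 1))
    (h : ∫⁻ x, mm δ a e x ^ (1 + 1 / (d : ℝ)) ≤ ENNReal.ofReal (C * δ ^ d * (Fintype.card ι : ℝ)))
    {q : ℝ} (hq : 1 + 1 / (d : ℝ) ≤ q) : KB q (C ^ (1 / q)) δ a e := by
  have hd0 : (0 : ℝ) < d := by exact_mod_cast (by omega : 0 < d)
  have hd1 : 0 < 1 / (d : ℝ) := by positivity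
  apply to_elp (by omega) (by linarith) hC.le hδ
  rcases isEmpty_or_nonempty ι with hι | hι
  · have : ∀ x, mm δ a e x ^ q = 0 := by
      intro x
      unfold mm
      rw [Finset.univ_eq_empty, Finset.sum_empty, ENNReal.zero_rpow_of_pos (by linarith)]
    simp [this]
  set N : ℝ := (Fintype.card ι : ℝ) with hN
  have hN1 : 1 ≤ N := by
    rw [hN]
    exact_mod_cast Fintype.card_pos
  have hN0 : 0 < N := by linarith
  have hmle : ∀ x, mm δ a e x ≤ ENNReal.ofReal N := by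
    intro x
    unfold mm
    calc ∑ j, (tube δ (a j) (e j)).indicator (fun _ => (1 : ℝ≥0∞)) x ≤ ∑ _j : ι, (1 : ℝ≥0∞) := by
          apply Finset.sum_le_sum
          intro i _
          by_cases hx : x ∈ tube δ (a i) (e i)
          · rw [indicator_of_mem hx]
          · rw [indicator_of_notMem hx]
            exact bot_le
      _ = ENNReal.ofReal N := by
          rw [Finset.sum_const, nsmul_eq_mul, mul_one, Finset.card_univ, hN, ENNReal.ofReal_natCast]
  have hpt : ∀ x, mm δ a e x ^ q ≤ ENNReal.ofReal (N ^ (q - (1 + 1 / (d : ℝ)))) *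
      mm δ a e x ^ (1 + 1 / (d : ℝ)) := by
    intro x
    have e1 : q = (q - (1 + 1 / (d : ℝ))) + (1 + 1 / (d : ℝ)) := by ring
    nth_rewrite 1 [e1]
    rw [ENNReal.rpow_add_of_nonneg _ _ (by linarith) (by positivity),
      ← ENNReal.ofReal_rpow_of_pos hN0]
    gcongr
    exact hmle x
  rw [Nat.add_sub_cancel]
  calc ∫⁻ x, mm δ a e x ^ q
      ≤ ∫⁻ x, ENNReal.ofReal (N ^ (q - (1 + 1 / (d : ℝ)))) *
      mm δ a e x ^ (1 + 1 / (d : ℝ)) := lintegral_mono hpt
    _ = ENNReal.ofReal (N ^ (q - (1 + 1 / (d : ℝ)))) * ∫⁻ x, mm δ a e x ^ (1 + 1 / (d : ℝ)) := by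
        rw [lintegral_const_mul' _ _ ENNReal.ofReal_ne_top]
    _ ≤ ENNReal.ofReal (N ^ (q - (1 + 1 / (d : ℝ)))) * ENNReal.ofReal (C * δ ^ d * N) := by
        gcongr
    _ = _ := by
        rw [← ENNReal.ofReal_mul (by positivity)]
        congr 1
        have e1 : N ^ (q - 1 / (d : ℝ)) = N ^ (q - (1 + 1 / (d : ℝ))) * N := by
          nth_rewrite 3 [← Real.rpow_one N]
          rw [← Real.rpow_add hN0]
          congr 1
          ring
        rw [e1]
        ring

/-- The volume of the union from essential disjointness. -/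
theorem vol_of_int {d : ℕ} {Q : ℝ} (hQ : 1 < Q) {C : ℝ} (hC : 0 < C) :
    ∃ κ : ℝ, 0 < κ ∧ ∀ δ : ℝ, 0 < δ → δ < 1 → ∀ (ι : Type) [Fintype ι] (a e : ι → E (d + 1)),
      (∀ i, ‖e i‖ = 1) →
      ∫⁻ x, mm δ a e x ^ Q ≤ ENNReal.ofReal (C * δ ^ d * (Fintype.card ι : ℝ)) →
      ENNReal.ofReal (κ * δ ^ d * (Fintype.card ι : ℝ)) ≤ volume (⋃ i, tube δ (a i) (e i)) := by
  obtain ⟨κ0, hκ0, hvol⟩ := Pool.Agent.W131.HM.VOL d
  -- `l ^ (1 - Q) C = κ0 / 2`
  set l : ℝ := (κ0 / 2 / C) ^ (1 / (1 - Q)) with hl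
  have hl0 : 0 < l := by positivity
  have hlQ : l ^ (1 - Q) * C = κ0 / 2 := by
    rw [hl, ← Real.rpow_mul (by positivity), one_div, inv_mul_cancel₀ (by linarith), Real.rpow_one]
    field_simp
  refine ⟨κ0 / 2 / l, by positivity, ?_⟩
  intro δ hδ hδ1 ι _ a e he hint
  set N : ℝ := (Fintype.card ι : ℝ) with hN
  have hN0 : 0 ≤ N := Nat.cast_nonneg _
  have hlow : ENNReal.ofReal (κ0 * δ ^ d * N) ≤ ∫⁻ x, mm δ a e x := by
    unfold mm
    rw [lintegral_finsetSum _ (fun j _ => ind_ms δ (a j) (e j))]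
    calc ENNReal.ofReal (κ0 * δ ^ d * N) = ∑ _j : ι, ENNReal.ofReal (κ0 * δ ^ d) := by
          rw [Finset.sum_const, nsmul_eq_mul, Finset.card_univ, ← ENNReal.ofReal_natCast,
            ← ENNReal.ofReal_mul (by positivity)]
          congr 1
          rw [hN]
          ring
      _ ≤ _ := by
          apply Finset.sum_le_sum
          intro j _
          rw [lintegral_indicator (tube_ms δ (a j) (e j)), setLIntegral_one]
          exact (hvol (a j) (e j) δ (he j) hδ hδ1.le).1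
  have hms : MeasurableSet (⋃ i, tube δ (a i) (e i)) :=
    MeasurableSet.iUnion fun i => tube_ms δ (a i) (e i)
  have hpt : ∀ x, mm δ a e x ≤ (⋃ i, tube δ (a i) (e i)).indicator
      (fun _ => ENNReal.ofReal l) x + ENNReal.ofReal (l ^ (1 - Q)) * mm δ a e x ^ Q := by
    intro x
    by_cases hx : x ∈ ⋃ i, tube δ (a i) (e i)
    · rw [indicator_of_mem hx]
      have g1 := pow_le_two (t := mm δ a e x) (l := ENNReal.ofReal l) (a := 1) (Q := Q) le_rfl
        hQ.le (ENNReal.ofReal_pos.2 hl0).ne' ENNReal.ofReal_ne_top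
      rcases le_or_gt (mm δ a e x) (ENNReal.ofReal l) with h1 | h1
      · exact h1.trans le_self_add
      · refine le_trans ?_ le_add_self
        rcases eq_or_ne (mm δ a e x) ⊤ with ht | ht
        · rw [ht, ENNReal.top_rpow_of_pos (by linarith), ENNReal.mul_top]
          exact (ENNReal.ofReal_pos.2 (by positivity)).ne'
        have ht0 : mm δ a e x ≠ 0 := by
          intro h0
          rw [h0] at h1
          exact ENNReal.not_lt_zero h1
        calc mm δ a e x = mm δ a e x ^ (1 - Q) * mm δ a e x ^ Q := by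
              rw [← ENNReal.rpow_add _ _ ht0 ht]
              simp
          _ ≤ ENNReal.ofReal (l ^ (1 - Q)) * mm δ a e x ^ Q := by
              gcongr ?_ * _
              have e2 : 1 - Q = -(Q - 1) := by ring
              rw [← ENNReal.ofReal_rpow_of_pos hl0, e2, ENNReal.rpow_neg, ENNReal.rpow_neg,
                ENNReal.inv_le_inv]
              exact ENNReal.rpow_le_rpow h1.le (by linarith)
    · have h0 : mm δ a e x = 0 := by
        unfold mm
        apply Finset.sum_eq_zero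
        intro i _
        apply indicator_of_notMem
        intro hx'
        exact hx (mem_iUnion.2 ⟨i, hx'⟩)
      rw [h0]
      exact bot_le
  have hup : ∫⁻ x, mm δ a e x ≤ ENNReal.ofReal l * volume (⋃ i, tube δ (a i) (e i)) +
      ENNReal.ofReal (κ0 / 2 * δ ^ d * N) := by
    calc ∫⁻ x, mm δ a e x
        ≤ ∫⁻ x, ((⋃ i, tube δ (a i) (e i)).indicator
      (fun _ => ENNReal.ofReal l) x + ENNReal.ofReal (l ^ (1 - Q)) * mm δ a e x ^ Q) :=
          lintegral_mono hpt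
      _ = ENNReal.ofReal l * volume (⋃ i, tube δ (a i) (e i)) +
          ENNReal.ofReal (l ^ (1 - Q)) * ∫⁻ x, mm δ a e x ^ Q := by
          rw [lintegral_add_left (measurable_const.indicator hms), lintegral_indicator hms,
            setLIntegral_const, lintegral_const_mul' _ _ ENNReal.ofReal_ne_top]
      _ ≤ ENNReal.ofReal l * volume (⋃ i, tube δ (a i) (e i)) +
          ENNReal.ofReal (l ^ (1 - Q)) * ENNReal.ofReal (C * δ ^ d * N) := by gcongr
      _ = _ := by
          rw [← ENNReal.ofReal_mul (by positivity)]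
          congr 2
          rw [← hlQ]
          ring
  have h3 := hlow.trans hup
  have h4 : ENNReal.ofReal (κ0 * δ ^ d * N) = ENNReal.ofReal (κ0 / 2 * δ ^ d * N) +
      ENNReal.ofReal (κ0 / 2 * δ ^ d * N) := by
    rw [← ENNReal.ofReal_add (by positivity) (by positivity)]
    congr 1
    ring
  rw [h4] at h3
  have h5 : ENNReal.ofReal (κ0 / 2 * δ ^ d * N) ≤
      ENNReal.ofReal l * volume (⋃ i, tube δ (a i) (e i)) :=
    (ENNReal.add_le_add_iff_right ENNReal.ofReal_ne_top).1 h3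
  calc ENNReal.ofReal (κ0 / 2 / l * δ ^ d * N)
      = ENNReal.ofReal l⁻¹ * ENNReal.ofReal (κ0 / 2 * δ ^ d * N) := by
        rw [← ENNReal.ofReal_mul (by positivity)]
        congr 1
        ring
    _ ≤ ENNReal.ofReal l⁻¹ * (ENNReal.ofReal l * volume (⋃ i, tube δ (a i) (e i))) := by gcongr
    _ = volume (⋃ i, tube δ (a i) (e i)) := by
        rw [← mul_assoc, ← ENNReal.ofReal_mul (by positivity), inv_mul_cancel₀ hl0.ne',
          ENNReal.ofReal_one, one_mul]

end Pool.Agent.X160.Ws
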