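import Pool.Agent.X160.Ws.Step
set_option autoImplicit false

/-!
# Thin tubes with `ρ`-separated directions: the induction on scales
-/

open MeasureTheory Set Metric
open scoped ENNReal NNReal

namespace Pool.Agent.X160.Ws

open Pool.Agent.TH705.RR Pool.Agent.X160.Pl

/-- The centre of the rescaled tube. -/
noncomputable def ctr {n : ℕ} (ρ : ℝ) (y a e : E n) : E n :=
  ρ⁻¹ • ((a + (inner ℝ (y - a) e) • e) - y)

theorem geoA {n : ℕ} {ρ w : ℝ} (hρ : 0 < ρ) {a e y z : E n} (he : ‖e‖ = 1) (hz : ‖z‖ ≤ 1 / 4)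
    (hx : y + ρ • z ∈ tube w a e) : z ∈ tube (w / ρ) (ctr ρ y a e) e := by
  obtain ⟨h1, h2⟩ := hx
  have hee : inner ℝ e e = (1 : ℝ) := by rw [real_inner_self_eq_norm_sq, he]; norm_num
  have e1 : z - ctr ρ y a e = ρ⁻¹ • ((y + ρ • z - a) - (inner ℝ (y - a) e) • e) := by
    unfold ctr
    have : z = ρ⁻¹ • (ρ • z) := by rw [smul_smul, inv_mul_cancel₀ hρ.ne', one_smul]
    nth_rewrite 1 [this]
    rw [← smul_sub]
    congr 1
    abel
  have e2 : inner ℝ (z - ctr ρ y a e) e = inner ℝ z e := by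
    rw [e1, inner_smul_left, inner_sub_left, inner_smul_left, hee]
    have : y + ρ • z - a = (y - a) + ρ • z := by abel
    rw [this, inner_add_left, inner_smul_left]
    simp only [RCLike.conj_to_real]
    field_simp
    ring
  constructor
  · show |inner ℝ (z - ctr ρ y a e) e| ≤ 1 / 2
    rw [e2]
    have := abs_real_inner_le_norm z e
    rw [he, mul_one] at this
    linarith
  · show ‖z - ctr ρ y a e - (inner ℝ (z - ctr ρ y a e) e) • e‖ ≤ w / ρ
    rw [e2, e1]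
    have e3 : ρ⁻¹ • (y + ρ • z - a - (inner ℝ (y - a) e) • e) - (inner ℝ z e) • e =
        ρ⁻¹ • (y + ρ • z - a - (inner ℝ (y + ρ • z - a) e) • e) := by
      have : y + ρ • z - a = (y - a) + ρ • z := by abel
      rw [this, inner_add_left, inner_smul_left]
      simp only [RCLike.conj_to_real]
      have h5 : (inner ℝ z e) • e = ρ⁻¹ • ((ρ * inner ℝ z e) • e) := by
        rw [smul_smul, ← mul_assoc, inv_mul_cancel₀ hρ.ne', one_mul]
      rw [h5, ← smul_sub]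
      congr 1
      rw [add_smul]
      abel
    rw [e3, norm_smul, Real.norm_eq_abs, abs_of_pos (by positivity), inv_mul_eq_div]
    gcongr

theorem geoB {n : ℕ} {ρ w : ℝ} (hρ : 0 < ρ) (hρ1 : ρ ≤ 1) (hw : w ≤ ρ) {a e y z : E n}
    (he : ‖e‖ = 1) (hz : ‖z‖ ≤ 1 / 4)
    (hx : y + ρ • z ∈ tube w a e) : (1 / 2 : ℝ) • y ∈ tube ρ ((1 / 2 : ℝ) • a) e := by
  obtain ⟨h1, h2⟩ := hx
  have e0 : y - a = (y + ρ • z - a) - ρ • z := by abel
  have e1 : inner ℝ (y - a) e = inner ℝ (y + ρ • z - a) e - ρ * inner ℝ z e := by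
    rw [e0, inner_sub_left, inner_smul_left]
    simp
  have hze : |inner ℝ z e| ≤ 1 / 4 := by
    have := abs_real_inner_le_norm z e
    rw [he, mul_one] at this
    linarith
  have e2 : (1 / 2 : ℝ) • y - (1 / 2 : ℝ) • a = (1 / 2 : ℝ) • (y - a) := by rw [smul_sub]
  have e3 : inner ℝ ((1 / 2 : ℝ) • (y - a)) e = 1 / 2 * inner ℝ (y - a) e := by
    rw [inner_smul_left]; simp
  constructor
  · show |inner ℝ ((1 / 2 : ℝ) • y - (1 / 2 : ℝ) • a) e| ≤ 1 / 2
    rw [e2, e3, e1, abs_mul]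
    have g1 : |inner ℝ (y + ρ • z - a) e - ρ * inner ℝ z e| ≤
        |inner ℝ (y + ρ • z - a) e| + |ρ * inner ℝ z e| := abs_sub _ _
    have g2 : |ρ * inner ℝ z e| ≤ 1 * (1 / 4) := by
      rw [abs_mul, abs_of_pos hρ]
      gcongr
    rw [abs_of_pos (by norm_num : (0 : ℝ) < 1 / 2)]
    linarith
  · show ‖(1 / 2 : ℝ) • y - (1 / 2 : ℝ) • a -
      (inner ℝ ((1 / 2 : ℝ) • y - (1 / 2 : ℝ) • a) e) • e‖ ≤ ρ
    rw [e2, e3, ← smul_smul, ← smul_sub, norm_smul]
    have e4 : y - a - (inner ℝ (y - a) e) • e =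
        (y + ρ • z - a - (inner ℝ (y + ρ • z - a) e) • e) -
          ρ • (z - (inner ℝ z e) • e) := by
      rw [e1, smul_sub, sub_smul, smul_smul]
      abel
    have g1 : ‖y - a - (inner ℝ (y - a) e) • e‖ ≤ w + ρ * (1 / 2) := by
      rw [e4]
      refine (norm_sub_le _ _).trans ?_
      have g3 : ‖z - (inner ℝ z e) • e‖ ≤ 1 / 2 := by
        refine (norm_sub_le _ _).trans ?_
        rw [norm_smul, he, mul_one, Real.norm_eq_abs]
        linarith
      rw [norm_smul, Real.norm_eq_abs, abs_of_pos hρ]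
      gcongr
    rw [Real.norm_eq_abs, abs_of_pos (by norm_num : (0 : ℝ) < 1 / 2)]
    linarith

/-- The rescaled estimate in one ball: `D` bounds the integral for the rescaled family of the tubes
that meet the ball. -/
theorem one_ball {n : ℕ} {ρ w : ℝ} (hρ : 0 < ρ) (hρ1 : ρ ≤ 1) (hw : w ≤ ρ) {ι : Type} [Fintype ι]
    (a e : ι → E n) (he : ∀ i, ‖e i‖ = 1) {q : ℝ} (hq : 0 < q) (y : E n) :
    ∃ S : Finset ι, (S.card : ℝ≥0∞) ≤ mm ρ (fun i => (1 / 2 : ℝ) • a i) e ((1 / 2 : ℝ) • y) ∧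
      ∫⁻ x in closedBall y (ρ / 4), mm w a e x ^ q ≤ ENNReal.ofReal (ρ ^ n) *
        ∫⁻ z, mm (w / ρ) (fun i : S => ctr ρ y (a i) (e i)) (fun i : S => e i) z ^ q := by
  classical
  refine ⟨Finset.univ.filter (fun i => ∃ z : E n, ‖z‖ ≤ 1 / 4 ∧ y + ρ • z ∈ tube w (a i) (e i)),
    ?_, ?_⟩
  · set S := Finset.univ.filter (fun i => ∃ z : E n, ‖z‖ ≤ 1 / 4 ∧ y + ρ • z ∈ tube w (a i) (e i))
      with hS
    unfold mm
    calc (S.card : ℝ≥0∞) = ∑ i ∈ S, (1 : ℝ≥0∞) := by simp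
      _ ≤ ∑ i ∈ S, (tube ρ ((1 / 2 : ℝ) • a i) (e i)).indicator (fun _ => (1 : ℝ≥0∞))
          ((1 / 2 : ℝ) • y) := by
          apply Finset.sum_le_sum
          intro i hi
          obtain ⟨z, hz, hx⟩ := (Finset.mem_filter.1 hi).2
          rw [indicator_of_mem (geoB hρ hρ1 hw (he i) hz hx)]
      _ ≤ _ := Finset.sum_le_sum_of_subset (Finset.subset_univ _)
  · set S := Finset.univ.filter (fun i => ∃ z : E n, ‖z‖ ≤ 1 / 4 ∧ y + ρ • z ∈ tube w (a i) (e i))
      with hS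
    set G : E n → ℝ≥0∞ := (closedBall y (ρ / 4)).indicator (fun x => mm w a e x ^ q) with hG
    have hGm : Measurable G :=
      ((mm_ms w a e).pow_const q).indicator isClosed_closedBall.measurableSet
    have hpt : ∀ z, G (y + ρ • z) ≤
        mm (w / ρ) (fun i : S => ctr ρ y (a i) (e i)) (fun i : S => e i) z ^ q := by
      intro z
      by_cases hz : ‖z‖ ≤ 1 / 4
      · have hmem : y + ρ • z ∈ closedBall y (ρ / 4) := by
          rw [mem_closedBall, dist_eq_norm]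
          have : y + ρ • z - y = ρ • z := by abel
          rw [this, norm_smul, Real.norm_eq_abs, abs_of_pos hρ]
          nlinarith
        rw [hG, indicator_of_mem hmem]
        refine ENNReal.rpow_le_rpow ?_ hq.le
        unfold mm
        calc ∑ i, (tube w (a i) (e i)).indicator (fun _ => (1 : ℝ≥0∞)) (y + ρ • z)
            = ∑ i ∈ S, (tube w (a i) (e i)).indicator (fun _ => (1 : ℝ≥0∞)) (y + ρ • z) := by
              symm
              apply Finset.sum_subset (Finset.subset_univ _)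
              intro i _ hi
              apply indicator_of_notMem
              intro hx
              exact hi (Finset.mem_filter.2 ⟨Finset.mem_univ _, z, hz, hx⟩)
          _ ≤ ∑ i ∈ S, (tube (w / ρ) (ctr ρ y (a i) (e i)) (e i)).indicator
              (fun _ => (1 : ℝ≥0∞)) z := by
              apply Finset.sum_le_sum
              intro i _
              by_cases hx : y + ρ • z ∈ tube w (a i) (e i)
              · rw [indicator_of_mem hx, indicator_of_mem (geoA hρ (he i) hz hx)]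
              · rw [indicator_of_notMem hx]
                exact bot_le
          _ = _ := (Finset.sum_coe_sort S (fun i => (tube (w / ρ) (ctr ρ y (a i) (e i))
              (e i)).indicator (fun _ => (1 : ℝ≥0∞)) z)).symm
      · have hmem : y + ρ • z ∉ closedBall y (ρ / 4) := by
          rw [mem_closedBall, dist_eq_norm]
          have : y + ρ • z - y = ρ • z := by abel
          rw [this, norm_smul, Real.norm_eq_abs, abs_of_pos hρ]
          push Not at hz ⊢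
          nlinarith
        rw [hG, indicator_of_notMem hmem]
        exact bot_le
    have h1 : ∫⁻ x in closedBall y (ρ / 4), mm w a e x ^ q = ∫⁻ x, G x := by
      rw [hG, lintegral_indicator isClosed_closedBall.measurableSet]
    have h2 : ∫⁻ z, G (y + ρ • z) = ENNReal.ofReal ((ρ ^ n)⁻¹) * ∫⁻ x, G x := by
      rw [lint_smul (f := fun x => G (y + x)) (hGm.comp (measurable_const_add y)) hρ,
        lintegral_add_left_eq_self G y]
    have h3 : ∫⁻ x, G x = ENNReal.ofReal (ρ ^ n) * ∫⁻ z, G (y + ρ • z) := by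
      rw [h2, ← mul_assoc, ← ENNReal.ofReal_mul (by positivity),
        mul_inv_cancel₀ (by positivity), ENNReal.ofReal_one, one_mul]
    rw [h1, h3]
    gcongr with z
    exact hpt z

/-- The statement proved by induction on `j`. -/
def SJ (n : ℕ) (Q κ : ℝ) (j : ℕ) : Prop := ∀ q : ℝ, 1 ≤ q → q ≤ Q → ∃ C : ℝ, 0 < C ∧
  ∀ ρ w : ℝ, 0 < ρ → ρ < 1 → 0 < w → w ≤ ρ ^ (j + 1) →
  ∀ (ι : Type) [Fintype ι] (a e : ι → E n), (∀ i, ‖e i‖ = 1) →
    (∀ i j, i ≠ j → ρ ≤ ‖e i - e j‖) →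
    ∫⁻ x, mm w a e x ^ q ≤ ENNReal.ofReal (C * w ^ (n - 1) * ((Fintype.card ι : ℝ) +
      (w / ρ ^ (j + 1)) ^ (q - 1) *
        (Fintype.card ι : ℝ) ^ (1 + (q - 1) * κ ^ j * (1 - 1 / ((n - 1 : ℕ) : ℝ)))))

theorem sj_zero {n : ℕ} (hn : 3 ≤ n) {Q κ : ℝ} (hQ : Q ≤ 2) : SJ n Q κ 0 := by
  intro q hq hqQ
  obtain ⟨C, hC, h⟩ := base hn hq (hqQ.trans hQ)
  refine ⟨C, hC, ?_⟩
  intro ρ w hρ hρ1 hw hwρ ι _ a e he hsep
  rw [zero_add, pow_one] at hwρ
  have h1 := h ρ w hw hwρ hρ1 ι a e he hsep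
  simpa only [zero_add, pow_one, pow_zero, mul_one] using h1

theorem sj_succ {n : ℕ} (hn : 3 ≤ n) {Q κ A : ℝ} (hA : 0 < A) (hκ : 0 ≤ κ) (hκ1 : κ ≤ 1)
    (H : ∀ ρ : ℝ, 0 < ρ → ρ < 1 → ∀ (ι : Type) [Fintype ι] (a e : ι → E n), (∀ i, ‖e i‖ = 1) →
      (∀ i j, i ≠ j → ρ ≤ ‖e i - e j‖) →
      ∫⁻ x, mm ρ a e x ^ Q ≤ ENNReal.ofReal (A * ρ ^ (n - 1) *
        (Fintype.card ι : ℝ) ^ (1 + (Q - 1) * κ)))
    {j : ℕ} (hj : SJ n Q κ j) : SJ n Q κ (j + 1) := by
  intro q hq hqQ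
  obtain ⟨C, hC, hS⟩ := hj q hq hqQ
  have hv := vb_pos n
  set m : ℕ := n - 1 with hm
  have hm2 : (2 : ℝ) ≤ m := by exact_mod_cast (by omega : 2 ≤ n - 1)
  have hm1 : 0 ≤ 1 - 1 / (m : ℝ) := by
    have : 1 / (m : ℝ) ≤ 1 := by rw [div_le_one (by linarith)]; linarith
    linarith
  have hm1' : 1 - 1 / (m : ℝ) ≤ 1 := by
    have : 0 ≤ 1 / (m : ℝ) := by positivity
    linarith
  have hκj : κ ^ j ≤ 1 := pow_le_one₀ hκ hκ1
  have hκj0 : 0 ≤ κ ^ j := pow_nonneg hκ j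
  set b : ℝ := 1 + (q - 1) * κ ^ j * (1 - 1 / (m : ℝ)) with hb
  have hb1 : 1 ≤ b := by
    have : 0 ≤ (q - 1) * κ ^ j * (1 - 1 / (m : ℝ)) :=
      mul_nonneg (mul_nonneg (by linarith) hκj0) hm1
    linarith
  have hbQ : b ≤ Q := by
    have h1 : (q - 1) * κ ^ j * (1 - 1 / (m : ℝ)) ≤ (q - 1) * 1 * 1 := by
      gcongr
    linarith
  set c1 : ℝ := 2 ^ n * vb n * 4 + A with hc1
  have hc10 : 0 < c1 := by positivity
  refine ⟨4 ^ n * (vb n)⁻¹ * C * (2 ^ n * c1), by positivity, ?_⟩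
  intro ρ w hρ hρ1 hw hwρ ι _ a e he hsep
  have hwρ1 : w ≤ ρ := hwρ.trans (by
    calc ρ ^ (j + 1 + 1) ≤ ρ ^ 1 := pow_le_pow_of_le_one hρ.le hρ1.le (by omega)
      _ = ρ := pow_one ρ)
  have hwρ2 : w / ρ ≤ ρ ^ (j + 1) := by
    rw [div_le_iff₀ hρ, ← pow_succ]
    exact hwρ
  set N : ℝ := (Fintype.card ι : ℝ) with hN
  set ll : ℝ := w / ρ ^ (j + 1 + 1) with hll
  have hll0 : 0 < ll := by positivity
  have hll' : w / ρ / ρ ^ (j + 1) = ll := by
    rw [hll, pow_succ ρ (j + 1)]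
    field_simp
  set a2 : ι → E n := fun i => (1 / 2 : ℝ) • a i with ha2
  set F : E n → ℝ≥0∞ := fun x => mm w a e x ^ q with hF
  have hFm : Measurable F := (mm_ms w a e).pow_const q
  set M : E n → ℝ≥0∞ := fun y => mm ρ a2 e ((1 / 2 : ℝ) • y) with hM
  have hMm : Measurable M := (mm_ms ρ a2 e).comp (measurable_const_smul _)
  -- one ball
  have hball : ∀ y, ∫⁻ x in closedBall y (ρ / 4), F x ≤
      ENNReal.ofReal (ρ ^ n * (C * (w / ρ) ^ m)) *
        (M y + ENNReal.ofReal (ll ^ (q - 1)) * M y ^ b) := by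
    intro y
    obtain ⟨S, hS1, hS2⟩ := one_ball hρ hρ1.le hwρ1 a e he (q := q) (by linarith) y
    refine hS2.trans ?_
    have h1 := hS ρ (w / ρ) hρ hρ1 (by positivity) hwρ2 S (fun i : S => ctr ρ y (a i) (e i))
      (fun i : S => e i) (fun i => he i) (fun i j hij => hsep i j (fun h => hij (Subtype.ext h)))
    rw [Fintype.card_coe, hll'] at h1
    have h2 : ENNReal.ofReal (C * (w / ρ) ^ m * ((S.card : ℝ) + ll ^ (q - 1) *
        (S.card : ℝ) ^ b)) = ENNReal.ofReal (C * (w / ρ) ^ m) *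
        ((S.card : ℝ≥0∞) + ENNReal.ofReal (ll ^ (q - 1)) * (S.card : ℝ≥0∞) ^ b) := by
      rw [ENNReal.ofReal_mul (p := C * (w / ρ) ^ m) (by positivity),
        ENNReal.ofReal_add (by positivity) (by positivity),
        ENNReal.ofReal_mul (p := ll ^ (q - 1)) (by positivity),
        ← ENNReal.ofReal_rpow_of_nonneg (x := (S.card : ℝ)) (by positivity)
        (by linarith), ENNReal.ofReal_natCast]
    calc ENNReal.ofReal (ρ ^ n) *
          ∫⁻ z, mm (w / ρ) (fun i : S => ctr ρ y (a i) (e i)) (fun i : S => e i) z ^ q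
        ≤ ENNReal.ofReal (ρ ^ n) * (ENNReal.ofReal (C * (w / ρ) ^ m) *
          ((S.card : ℝ≥0∞) + ENNReal.ofReal (ll ^ (q - 1)) * (S.card : ℝ≥0∞) ^ b)) := by
          rw [← h2]
          gcongr
      _ ≤ ENNReal.ofReal (ρ ^ n) * (ENNReal.ofReal (C * (w / ρ) ^ m) *
          (M y + ENNReal.ofReal (ll ^ (q - 1)) * M y ^ b)) := by
          gcongr
      _ = _ := by
          rw [← mul_assoc, ← ENNReal.ofReal_mul (by positivity)]
  -- the integrals over `y`
  have hMint : ∀ b' : ℝ, ∫⁻ y, M y ^ b' = ENNReal.ofReal (2 ^ n) * ∫⁻ x, mm ρ a2 e x ^ b' := by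
    intro b'
    have h1 := lint_smul (f := fun x => mm ρ a2 e x ^ b') ((mm_ms ρ a2 e).pow_const b')
      (a := 1 / 2) (by norm_num)
    rw [show (((1 / 2 : ℝ) ^ n)⁻¹) = 2 ^ n by
      rw [one_div, inv_pow, inv_inv]] at h1
    exact h1
  have hH := H ρ hρ hρ1 ι a2 e he hsep
  have hQ1 : 1 ≤ Q := hq.trans hqQ
  have hI1 : ∫⁻ y, M y ≤ ENNReal.ofReal (2 ^ n * (c1 * ρ ^ m * N)) := by
    have h1 := hMint 1
    simp only [ENNReal.rpow_one] at h1
    have h2 := coarse (n := n) (by omega) hA hρ hρ1 a2 e he hH (b := 1) le_rfl hQ1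
    simp only [ENNReal.rpow_one, sub_self, zero_mul, add_zero, Real.rpow_one] at h2
    rw [h1, ENNReal.ofReal_mul (by positivity)]
    gcongr
  have hIb : ∫⁻ y, M y ^ b ≤ ENNReal.ofReal (2 ^ n * (c1 * ρ ^ m *
      N ^ (1 + (q - 1) * κ ^ (j + 1) * (1 - 1 / (m : ℝ))))) := by
    have h2 := coarse (n := n) (by omega) hA hρ hρ1 a2 e he hH (b := b) hb1 hbQ
    have e1 : 1 + (b - 1) * κ = 1 + (q - 1) * κ ^ (j + 1) * (1 - 1 / (m : ℝ)) := by
      rw [hb, pow_succ]; ring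
    rw [e1] at h2
    rw [hMint b, ENNReal.ofReal_mul (by positivity)]
    gcongr
  -- averaging
  have hav := avg hFm (ρ / 4)
  set V : ℝ := (ρ / 4) ^ n * vb n with hV
  have hV0 : 0 < V := by positivity
  have hvol : volume (closedBall (0 : E n) (ρ / 4)) = ENNReal.ofReal V :=
    vol_cball 0 (by positivity)
  rw [hvol] at hav
  have hN0 : 0 ≤ N := Nat.cast_nonneg _
  set R : ℝ := N + ll ^ (q - 1) * N ^ (1 + (q - 1) * κ ^ (j + 1) * (1 - 1 / (m : ℝ))) with hR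
  have hR0 : 0 ≤ R := by positivity
  have hmain : ENNReal.ofReal V * ∫⁻ x, F x ≤
      ENNReal.ofReal (ρ ^ n * (C * (w / ρ) ^ m) * (2 ^ n * c1 * ρ ^ m * R)) := by
    rw [← hav]
    calc ∫⁻ y, ∫⁻ x in closedBall y (ρ / 4), F x
        ≤ ∫⁻ y, ENNReal.ofReal (ρ ^ n * (C * (w / ρ) ^ m)) *
          (M y + ENNReal.ofReal (ll ^ (q - 1)) * M y ^ b) := lintegral_mono hball
      _ = ENNReal.ofReal (ρ ^ n * (C * (w / ρ) ^ m)) *
          ((∫⁻ y, M y) + ENNReal.ofReal (ll ^ (q - 1)) * ∫⁻ y, M y ^ b) := by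
          rw [lintegral_const_mul' _ _ ENNReal.ofReal_ne_top, lintegral_add_left hMm,
            lintegral_const_mul' _ _ ENNReal.ofReal_ne_top]
      _ ≤ ENNReal.ofReal (ρ ^ n * (C * (w / ρ) ^ m)) *
          (ENNReal.ofReal (2 ^ n * (c1 * ρ ^ m * N)) + ENNReal.ofReal (ll ^ (q - 1)) *
          ENNReal.ofReal (2 ^ n * (c1 * ρ ^ m *
            N ^ (1 + (q - 1) * κ ^ (j + 1) * (1 - 1 / (m : ℝ)))))) := by
          gcongr
      _ = _ := by
          rw [← ENNReal.ofReal_mul (by positivity), ← ENNReal.ofReal_add (by positivity)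
            (by positivity), ← ENNReal.ofReal_mul (by positivity)]
          congr 1
          rw [hR]
          ring
  have hfin : ∫⁻ x, F x = ENNReal.ofReal V⁻¹ * (ENNReal.ofReal V * ∫⁻ x, F x) := by
    rw [← mul_assoc, ← ENNReal.ofReal_mul (by positivity), inv_mul_cancel₀ hV0.ne',
      ENNReal.ofReal_one, one_mul]
  rw [hfin]
  calc ENNReal.ofReal V⁻¹ * (ENNReal.ofReal V * ∫⁻ x, F x)
      ≤ ENNReal.ofReal V⁻¹ *
        ENNReal.ofReal (ρ ^ n * (C * (w / ρ) ^ m) * (2 ^ n * c1 * ρ ^ m * R)) := by gcongr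
    _ = _ := by
        rw [← ENNReal.ofReal_mul (by positivity)]
        congr 1
        have g1 : (w / ρ) ^ m * ρ ^ m = w ^ m := by
          rw [← mul_pow, div_mul_cancel₀ _ hρ.ne']
        have g2 : V⁻¹ * ρ ^ n = 4 ^ n * (vb n)⁻¹ := by
          rw [hV, div_pow]
          field_simp
        calc V⁻¹ * (ρ ^ n * (C * (w / ρ) ^ m) * (2 ^ n * c1 * ρ ^ m * R))
            = (V⁻¹ * ρ ^ n) * C * (2 ^ n * c1) * ((w / ρ) ^ m * ρ ^ m) * R := by ring
          _ = _ := by rw [g1, g2]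

end Pool.Agent.X160.Ws
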