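import Pool.Agent.X160.Ws.Base
set_option autoImplicit false

/-!
# Thin tubes with `ρ`-separated directions: the coarse estimate and the induction step
-/

open MeasureTheory Set Metric
open scoped ENNReal NNReal

namespace Pool.Agent.X160.Ws

open Pool.Agent.TH705.RR Pool.Agent.X160.Pl

theorem pow_le_two {t l : ℝ≥0∞} {a Q : ℝ} (ha : 1 ≤ a) (haQ : a ≤ Q) (hl : l ≠ 0) (hl' : l ≠ ⊤) :
    t ^ a ≤ l ^ (a - 1) * t + l ^ (a - Q) * t ^ Q := by
  rcases le_or_gt t l with h | h
  · refine le_trans ?_ le_self_add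
    have e1 : t ^ a = t ^ (a - 1) * t := by
      have e2 : a = (a - 1) + 1 := by ring
      nth_rewrite 1 [e2]
      rw [ENNReal.rpow_add_of_nonneg _ _ (by linarith) zero_le_one, ENNReal.rpow_one]
    rw [e1]
    gcongr
  · refine le_trans ?_ le_add_self
    rcases eq_or_ne t ⊤ with ht | ht
    · have hQ0 : 0 < Q := by linarith
      rw [ht, ENNReal.top_rpow_of_pos hQ0, ENNReal.mul_top]
      · exact le_top
      · exact (ENNReal.rpow_pos (pos_iff_ne_zero.2 hl) hl').ne'
    have ht0 : t ≠ 0 := by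
      rintro rfl
      exact ENNReal.not_lt_zero h
    have e1 : t ^ a = t ^ (a - Q) * t ^ Q := by
      rw [← ENNReal.rpow_add _ _ ht0 ht]
      congr 1
      ring
    rw [e1]
    gcongr ?_ * _
    have e2 : a - Q = -(Q - a) := by ring
    rw [e2, ENNReal.rpow_neg, ENNReal.rpow_neg, ENNReal.inv_le_inv]
    exact ENNReal.rpow_le_rpow h.le (by linarith)

/-- The estimate at one exponent `Q` implies the estimates for `1 ≤ a ≤ Q`. -/
theorem coarse {n : ℕ} (hn : 1 ≤ n) {Q κ A : ℝ} (hA : 0 < A) {ρ : ℝ}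
    (hρ : 0 < ρ) (hρ1 : ρ < 1) {ι : Type} [Fintype ι] (a e : ι → E n) (he : ∀ i, ‖e i‖ = 1)
    (H : ∫⁻ x, mm ρ a e x ^ Q ≤ ENNReal.ofReal (A * ρ ^ (n - 1) *
      (Fintype.card ι : ℝ) ^ (1 + (Q - 1) * κ)))
    {b : ℝ} (hb : 1 ≤ b) (hbQ : b ≤ Q) :
    ∫⁻ x, mm ρ a e x ^ b ≤ ENNReal.ofReal ((2 ^ n * vb n * 4 + A) * ρ ^ (n - 1) *
      (Fintype.card ι : ℝ) ^ (1 + (b - 1) * κ)) := by
  have hv := vb_pos n
  have h1 := int_mm hn hρ hρ1 a e he
  rcases isEmpty_or_nonempty ι with hι | hι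
  · have : ∀ x, mm ρ a e x ^ b = 0 := by
      intro x
      unfold mm
      rw [Finset.univ_eq_empty, Finset.sum_empty, ENNReal.zero_rpow_of_pos (by linarith)]
    simp [this]
  set N : ℝ := (Fintype.card ι : ℝ) with hN
  have hN1 : 1 ≤ N := by
    rw [hN]
    exact_mod_cast Fintype.card_pos
  have hN0 : 0 < N := by linarith
  set l : ℝ := N ^ κ with hl
  have hl0 : 0 < l := by positivity
  have hpt : ∀ x, mm ρ a e x ^ b ≤ ENNReal.ofReal (l ^ (b - 1)) * mm ρ a e x +
      ENNReal.ofReal (l ^ (b - Q)) * mm ρ a e x ^ Q := by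
    intro x
    have g1 := pow_le_two (t := mm ρ a e x) (l := ENNReal.ofReal l) hb hbQ
      (ENNReal.ofReal_pos.2 hl0).ne' ENNReal.ofReal_ne_top
    rwa [ENNReal.ofReal_rpow_of_pos hl0, ENNReal.ofReal_rpow_of_pos hl0] at g1
  calc ∫⁻ x, mm ρ a e x ^ b
      ≤ ∫⁻ x, (ENNReal.ofReal (l ^ (b - 1)) * mm ρ a e x +
      ENNReal.ofReal (l ^ (b - Q)) * mm ρ a e x ^ Q) := lintegral_mono hpt
    _ = ENNReal.ofReal (l ^ (b - 1)) * (∫⁻ x, mm ρ a e x) +
        ENNReal.ofReal (l ^ (b - Q)) * (∫⁻ x, mm ρ a e x ^ Q) := by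
        rw [lintegral_add_left ((mm_ms ρ a e).const_mul _),
          lintegral_const_mul' _ _ ENNReal.ofReal_ne_top,
          lintegral_const_mul' _ _ ENNReal.ofReal_ne_top]
    _ ≤ ENNReal.ofReal (l ^ (b - 1)) * ENNReal.ofReal (2 ^ n * vb n * 4 * ρ ^ (n - 1) * N) +
        ENNReal.ofReal (l ^ (b - Q)) * ENNReal.ofReal (A * ρ ^ (n - 1) *
          N ^ (1 + (Q - 1) * κ)) := by
        gcongr
    _ = ENNReal.ofReal (l ^ (b - 1) * (2 ^ n * vb n * 4 * ρ ^ (n - 1) * N) +
        l ^ (b - Q) * (A * ρ ^ (n - 1) * N ^ (1 + (Q - 1) * κ))) := by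
        rw [← ENNReal.ofReal_mul (by positivity), ← ENNReal.ofReal_mul (by positivity),
          ← ENNReal.ofReal_add (by positivity) (by positivity)]
    _ = _ := by
        congr 1
        have g1 : l ^ (b - 1) * N = N ^ (1 + (b - 1) * κ) := by
          rw [hl, ← Real.rpow_mul hN0.le]
          nth_rewrite 2 [← Real.rpow_one N]
          rw [← Real.rpow_add hN0]
          congr 1
          ring
        have g2 : l ^ (b - Q) * N ^ (1 + (Q - 1) * κ) = N ^ (1 + (b - 1) * κ) := by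
          rw [hl, ← Real.rpow_mul hN0.le, ← Real.rpow_add hN0]
          congr 1
          ring
        calc l ^ (b - 1) * (2 ^ n * vb n * 4 * ρ ^ (n - 1) * N) +
              l ^ (b - Q) * (A * ρ ^ (n - 1) * N ^ (1 + (Q - 1) * κ))
            = 2 ^ n * vb n * 4 * ρ ^ (n - 1) * (l ^ (b - 1) * N) +
              A * ρ ^ (n - 1) * (l ^ (b - Q) * N ^ (1 + (Q - 1) * κ)) := by ring
          _ = _ := by rw [g1, g2]; ring

theorem lint_smul {n : ℕ} {f : E n → ℝ≥0∞} (hf : Measurable f) {a : ℝ} (ha : 0 < a) :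
    ∫⁻ x, f (a • x) = ENNReal.ofReal ((a ^ n)⁻¹) * ∫⁻ x, f x := by
  rw [← smul_eq_mul, ← lintegral_smul_measure]
  have h1 := Measure.map_addHaar_smul (volume : Measure (E n)) ha.ne'
  rw [finrank_euclideanSpace, Fintype.card_fin, abs_of_pos (by positivity)] at h1
  rw [← h1, lintegral_map hf (by fun_prop)]

/-- Averaging over balls. -/
theorem avg {n : ℕ} {F : E n → ℝ≥0∞} (hF : Measurable F) (r : ℝ) :
    ∫⁻ y, ∫⁻ x in closedBall y r, F x = volume (closedBall (0 : E n) r) * ∫⁻ x, F x := by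
  have h1 : ∀ y, ∫⁻ x in closedBall y r, F x =
      ∫⁻ x, ((closedBall (0 : E n) r).indicator (fun _ => (1 : ℝ≥0∞)) (x - y)) * F x := by
    intro y
    rw [← lintegral_indicator isClosed_closedBall.measurableSet]
    refine lintegral_congr fun x => ?_
    by_cases hx : x ∈ closedBall y r
    · have hx' : x - y ∈ closedBall (0 : E n) r := by
        rw [mem_closedBall_zero_iff, ← dist_eq_norm]
        exact hx
      rw [indicator_of_mem hx, indicator_of_mem hx', one_mul]
    · have hx' : x - y ∉ closedBall (0 : E n) r := by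
        rw [mem_closedBall_zero_iff, ← dist_eq_norm]
        exact hx
      rw [indicator_of_notMem hx, indicator_of_notMem hx', zero_mul]
  simp_rw [h1]
  have hm : Measurable ((closedBall (0 : E n) r).indicator (fun _ => (1 : ℝ≥0∞))) :=
    measurable_const.indicator isClosed_closedBall.measurableSet
  rw [lintegral_lintegral_swap]
  · have h2 : ∀ x, ∫⁻ y, ((closedBall (0 : E n) r).indicator (fun _ => (1 : ℝ≥0∞)) (x - y)) * F x =
        volume (closedBall (0 : E n) r) * F x := by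
      intro x
      have hm2 : Measurable (fun y : E n =>
          (closedBall (0 : E n) r).indicator (fun _ => (1 : ℝ≥0∞)) (x - y)) :=
        hm.comp (measurable_const.sub measurable_id)
      rw [lintegral_mul_const _ hm2]
      congr 1
      rw [lintegral_sub_left_eq_self (fun z => (closedBall (0 : E n) r).indicator
        (fun _ => (1 : ℝ≥0∞)) z) x, lintegral_indicator isClosed_closedBall.measurableSet,
        setLIntegral_one]
    simp_rw [h2]
    rw [lintegral_const_mul _ hF]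
  · exact ((hm.comp (measurable_snd.sub measurable_fst)).mul (hF.comp measurable_snd)).aemeasurable

end Pool.Agent.X160.Ws
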